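import Pool.Agent.Lib.MP_70bd98_an.AxPF

/-!
# MP_70bd98_an : Calderon uniqueness for bounded measurable conductivities of product form, every dimension `n ≥ 3`, every bounded
rotationally symmetric open set (balls, cylinders, ...), full data

`ℝⁿ = ℝ^m × ℝ` (`n = m + 1 ≥ 3`), points `(y, t)`. `W` is a bounded open set, rotationally symmetric about the axis `y = 0`; it may meet the
axis, its boundary is arbitrary and it need not be connected. The conductivities `γ₁, γ₂ ∈ L^∞(W)` are bounded below by a positive constant
and of the form `γ_j (y, t) = a_j (y / |y|) g_j (|y|, t)`; none of the four factors is known. (With `a_j = 1`: all rotationally symmetric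
conductivities.) If the Dirichlet-to-Neumann maps of `γ₁` and `γ₂` agree for the rotationally symmetric boundary values (for instance if
`Λ_γ₁ = Λ_γ₂`), then `γ₁ = γ₂` almost everywhere in `W`.
-/

open MeasureTheory Set RotCalderon

namespace Pool.Agent.Results.MP_70bd98_an.DomainsWithAxis

theorem result (m : ℕ) (hm : 2 ≤ m) (W : Set (X m)) (hW : IsOpen W) (hb : Bornology.IsBounded W) (hr : RotSet W)
    (γ₁ γ₂ : X m → ℝ) (h1 : IsCondN W γ₁) (h2 : IsCondN W γ₂) (r1 : IsProd W γ₁) (r2 : IsProd W γ₂)
    (h : SameFullSymDN W γ₁ γ₂) : γ₁ =ᵐ[volume.restrict W] γ₂ :=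
  ax_fullP hm hW hb hr h1 h2 r1 r2 h

end Pool.Agent.Results.MP_70bd98_an.DomainsWithAxis
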