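import Pool.Agent.Lib.MP_70bd98_an.SepC

/-!
# MP_70bd98_an : Calderon uniqueness for bounded measurable conductivities of product form, every dimension `n ≥ 3`, local data

`ℝⁿ = ℝ^m × ℝ` (`n = m + 1 ≥ 3`), points `(y, t)`. `W` is a bounded domain, rotationally symmetric about the axis `y = 0` and at positive
distance from it; its boundary is arbitrary. The conductivities `γ₁, γ₂ ∈ L^∞(W)` are bounded below by a positive constant and of the form
`γ_j (y, t) = a_j (y / |y|) g_j (|y|, t)`; none of the four factors is known. (With `a_j = 1`: all rotationally symmetric conductivities.)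
`Γ` is the whole boundary, or a rotationally symmetric relatively open part of it which contains a point of the closure of the exterior of `W`.
If the Dirichlet-to-Neumann maps of `γ₁` and `γ₂` agree on `Γ` for the rotationally symmetric boundary values supported in `Γ`, then
`γ₁ = γ₂` almost everywhere in `W`.
-/

open MeasureTheory Set RotCalderon

namespace Pool.Agent.Results.MP_70bd98_an.ProductConductivities

theorem result (m : ℕ) (hm : 2 ≤ m) (W Γ : Set (X m)) (hW : IsOpen W) (hc : IsConnected W) (hb : Bornology.IsBounded W)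
    (hr : RotSet W) (hax : ∃ δ : ℝ, 0 < δ ∧ ∀ x ∈ W, δ ≤ ‖x.1‖)
    (hΓ : Γ = frontier W ∨
      ((∃ O : Set (X m), IsOpen O ∧ Γ = O ∩ frontier W) ∧ RotSet Γ ∧ (Γ ∩ closure (closure W)ᶜ).Nonempty))
    (γ₁ γ₂ : X m → ℝ) (h1 : IsCondN W γ₁) (h2 : IsCondN W γ₂) (r1 : IsProd W γ₁) (r2 : IsProd W γ₂)
    (h : SameSymDN W Γ γ₁ γ₂) : γ₁ =ᵐ[volume.restrict W] γ₂ :=
  sep_thm (by omega) hW hc hb hr hax hΓ h1 h2 r1 r2 h

end Pool.Agent.Results.MP_70bd98_an.ProductConductivities
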